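import Pool.Agent.H62.FC.CurveIdeal
import Pool.Agent.H62.FC.Components
import Pool.Agent.H17BP.TrdegLt
import Pool.Agent.H17BP.ConstV
import Pool.Agent.H17BP.MapIdeal
import Pool.Agent.H17EF.MainE

/-!
# TS Fin: a form has finitely many zeros on a curve
-/

set_option autoImplicit false

open MvPolynomial Topology Filter
open Pool.Agent.H17 (PN VanishesAt HolomorphicInto)
open Pool.Agent.H62.FC (Homog exists_fin_basis homog_of_minimal)
open Pool.Agent.H17LG.Variety (FunField)
open Pool.Agent.H17EF (projVar)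
open Pool.Agent.H17BP (mapIdeal mapIdeal_isPrime mem_mapIdeal_form trdeg_lt eq_of_trdeg_zero)

noncomputable section

namespace Pool.Agent.H14.TS

variable {N : ℕ}

theorem const_holomorphicInto (x : PN N) : HolomorphicInto (fun _ : ℂ => x) Set.univ := by
  intro z _
  exact ⟨fun _ => x.rep, analyticAt_const, Eventually.of_forall fun _ => ⟨x.rep_nonzero, x.mk_rep.symm⟩⟩

/-- A form which is not zero on a curve has finitely many zeros on it. -/
theorem finite_zeros {Q : Ideal (MvPolynomial (Fin (N + 1)) ℂ)} [Q.IsPrime] (hQ : Homog Q)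
    (hz : ∃ z : Fin 1 → FunField Q, IsTranscendenceBasis ℂ z) {R : MvPolynomial (Fin (N + 1)) ℂ} {n : ℕ} (hR : R.IsHomogeneous n)
    (hRQ : R ∉ Q) : {x | x ∈ projVar Q ∧ VanishesAt R x}.Finite := by
  classical
  set κ : Type := {l : MvPolynomial (Fin (N + 1)) ℂ × ℕ // l.1.IsHomogeneous l.2 ∧ (l.1 ∈ Q ∨ l.1 = R)} with hκ
  set A : κ → MvPolynomial (Fin (N + 1)) ℂ := fun l => l.1.1 with hA
  have hAh : ∀ l, (A l).IsHomogeneous (l.1.2) := fun l => l.2.1
  have hQI : Q ≤ Ideal.span (Set.range A) := by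
    intro p hp
    rw [← MvPolynomial.sum_homogeneousComponent p]
    refine Ideal.sum_mem _ fun i _ => Ideal.subset_span ⟨⟨(homogeneousComponent i p, i), homogeneousComponent_isHomogeneous i p, Or.inl (hQ p hp i)⟩, rfl⟩
  have hRI : R ∈ Ideal.span (Set.range A) := Ideal.subset_span ⟨⟨(R, n), hR, Or.inr rfl⟩, rfl⟩
  have hfin := Ideal.finite_minimalPrimes_of_isNoetherianRing _ (Ideal.span (Set.range A))
  refine (hfin.biUnion (t := fun J => projVar J) fun J hJ => ?_).subset fun x hx => ?_
  · apply Set.Subsingleton.finite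
    intro x hx y hy
    have hJp : J.IsPrime := hJ.1.1
    have hJh : Homog J := homog_of_minimal hAh hJ
    have hQJ : Q ≤ J := hQI.trans hJ.1.2
    have hRJ : R ∈ J := hJ.1.2 hRI
    have hX : ∃ i, (X i : MvPolynomial (Fin (N + 1)) ℂ) ∉ J := by
      by_contra hcon
      push Not at hcon
      apply x.rep_nonzero
      funext i
      have h1 : VanishesAt (X i : MvPolynomial (Fin (N + 1)) ℂ) x := hx _ (hcon i) 1 (isHomogeneous_X ℂ i)
      have h2 : eval x.rep (X i : MvPolynomial (Fin (N + 1)) ℂ) = 0 := h1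
      rw [eval_X] at h2
      exact h2
    obtain ⟨w, hw⟩ := exists_fin_basis hX
    have h1 := trdeg_lt hQ hJh hQJ (fun h => hRQ (h hRJ)) hX hz hw
    obtain rfl : w = 0 := by omega
    exact eq_of_trdeg_zero hJh hX hw x ⟨hx, fun m => m.elim0⟩ y ⟨hy, fun m => m.elim0⟩
  · have hp := mapIdeal_isPrime isOpen_univ isPreconnected_univ ⟨(0 : ℂ), Set.mem_univ _⟩ (const_holomorphicInto x)
    have hle : Ideal.span (Set.range A) ≤ mapIdeal (fun _ : ℂ => x) Set.univ := by
      rw [Ideal.span_le]
      rintro _ ⟨l, rfl⟩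
      refine (mem_mapIdeal_form (hAh l)).2 fun z _ => ?_
      rcases l.2.2 with h | h
      · exact hx.1 _ h _ (hAh l)
      · have h1 : A l = R := h
        rw [h1]
        exact hx.2
    obtain ⟨J, hJ, hJle⟩ := Ideal.exists_minimalPrimes_le hle
    refine Set.mem_biUnion hJ fun G hG m hm => ?_
    exact (mem_mapIdeal_form hm).1 (hJle hG) 0 (Set.mem_univ _)

end Pool.Agent.H14.TS
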