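import Pool.Agent.H19T.FDefs
import Pool.Agent.TN.DirG

/-!
# TS Ell: directions in a lattice: elliptic, or with a second real direction in the closure
-/

set_option autoImplicit false

open Topology Filter

noncomputable section

namespace Pool.Agent.H14.TS

open Pool.Agent.H19T (EllipticDirection)

variable {n : ℕ}

/-- The line `ℂ a` contains two independent vectors of the lattice, or the closure of `ℂ a + Λ` contains a real line `ℝ e`, `e ∉ ℂ a`. -/
theorem elliptic_or {Λ : AddSubgroup (Fin n → ℂ)} {C : ℝ} (hC : ∀ b : Fin n → ℂ, ∃ l ∈ Λ, ‖b - l‖ ≤ C) (a : Fin n → ℂ) :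
    EllipticDirection Λ a ∨ ∃ e : Fin n → ℂ, e ∉ Submodule.span ℂ {a} ∧ ∀ t : ℝ, t • e ∈ closure {x | ∃ z : ℂ, ∃ l ∈ Λ, x = z • a + l} := by
  classical
  set D : AddSubgroup (Fin n → ℂ) := (Submodule.span ℂ {a}).toAddSubgroup ⊔ Λ with hD
  set H : AddSubgroup (Fin n → ℂ) := D.topologicalClosure with hH
  have hc : IsClosed (H : Set (Fin n → ℂ)) := D.isClosed_topologicalClosure
  have hDH : ∀ x ∈ D, x ∈ H := fun x hx => D.le_topologicalClosure hx
  have hDset : (D : Set (Fin n → ℂ)) = {x | ∃ z : ℂ, ∃ l ∈ Λ, x = z • a + l} := by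
    ext x
    constructor
    · intro hx
      obtain ⟨y, hy, l, hl, rfl⟩ := AddSubgroup.mem_sup.1 hx
      obtain ⟨z, rfl⟩ := Submodule.mem_span_singleton.1 hy
      exact ⟨z, l, hl, rfl⟩
    · rintro ⟨z, l, hl, rfl⟩
      exact AddSubgroup.mem_sup.2 ⟨z • a, Submodule.mem_span_singleton.2 ⟨z, rfl⟩, l, hl, rfl⟩
  let W : Submodule ℝ (Fin n → ℂ) :=
    { carrier := {e | ∀ t : ℝ, t • e ∈ H}
      zero_mem' := fun t => by rw [smul_zero]; exact H.zero_mem
      add_mem' := fun hx hy t => by rw [smul_add]; exact H.add_mem (hx t) (hy t)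
      smul_mem' := fun s x hx t => by rw [smul_smul]; exact hx (t * s) }
  have hW : ∀ e, e ∈ W ↔ ∀ t : ℝ, t • e ∈ H := fun e => Iff.rfl
  by_cases h : ∀ e ∈ W, e ∈ Submodule.span ℂ {a}
  · left
    have hspan := Pool.Agent.TN.span_lattice Λ H hc W hW (fun x hx => hDH x (AddSubgroup.mem_sup_right hx)) hC
    have hza : ∀ z : ℂ, z • a ∈ W := by
      intro z
      rw [hW]
      intro t
      apply hDH
      rw [hD]
      apply AddSubgroup.mem_sup_left
      show t • z • a ∈ Submodule.span ℂ {a}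
      rw [← Complex.coe_smul, smul_smul]
      exact Submodule.mem_span_singleton.2 ⟨_, rfl⟩
    obtain ⟨S, hS⟩ : ∃ S : Set ℂ, S = {ω : ℂ | ω • a ∈ Λ} := ⟨_, rfl⟩
    rcases eq_or_ne a 0 with rfl | ha
    · refine ⟨1, Complex.I, ?_, by rw [smul_zero]; exact Λ.zero_mem, by rw [smul_zero]; exact Λ.zero_mem⟩
      have := Complex.basisOneI.linearIndependent
      rwa [Complex.coe_basisOneI] at this
    have hinj : Function.Injective fun ω : ℂ => ω • a := smul_left_injective ℂ ha
    let L : ℂ →ₗ[ℝ] (Fin n → ℂ) := (LinearMap.toSpanSingleton ℂ (Fin n → ℂ) a).restrictScalars ℝ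
    have hL : ∀ ω, L ω = ω • a := fun ω => rfl
    have hLi : Function.Injective L := hinj
    have hle : Submodule.span ℝ {l : Fin n → ℂ | l ∈ Λ ∧ l ∈ W} ≤ (Submodule.span ℝ S).map L := by
      rw [Submodule.span_le]
      rintro l ⟨hl, hlW⟩
      obtain ⟨ω, rfl⟩ := Submodule.mem_span_singleton.1 (h l hlW)
      exact ⟨ω, Submodule.subset_span (by rw [hS]; exact hl), rfl⟩
    have htop : Submodule.span ℝ S = ⊤ := by
      rw [eq_top_iff]
      intro ω _
      obtain ⟨ω', hω', he⟩ := hle (hspan (hza ω))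
      rwa [← hLi (he.trans (hL ω).symm)]
    obtain ⟨ω₁, h1, h10⟩ : ∃ ω₁ ∈ S, ω₁ ≠ 0 := by
      by_contra hcon
      push Not at hcon
      have h2 : Submodule.span ℝ S = ⊥ := by
        rw [Submodule.span_eq_bot]
        exact hcon
      rw [htop] at h2
      exact top_ne_bot h2
    obtain ⟨ω₂, h2, h20⟩ : ∃ ω₂ ∈ S, ω₂ ∉ Submodule.span ℝ {ω₁} := by
      by_contra hcon
      push Not at hcon
      have h3 : (⊤ : Submodule ℝ ℂ) ≤ Submodule.span ℝ {ω₁} := by
        rw [← htop, Submodule.span_le]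
        exact hcon
      have h4 := Submodule.finrank_mono h3
      rw [finrank_top, Complex.finrank_real_complex] at h4
      have h5 := finrank_span_le_card (R := ℝ) ({ω₁} : Set ℂ)
      simp only [Set.toFinset_singleton, Finset.card_singleton] at h5
      omega
    rw [hS] at h1 h2
    refine ⟨ω₁, ω₂, ?_, h1, h2⟩
    rw [LinearIndependent.pair_iff' h10]
    intro t ht
    exact h20 (Submodule.mem_span_singleton.2 ⟨t, ht⟩)
  · right
    push Not at h
    obtain ⟨e, he, hea⟩ := h
    refine ⟨e, hea, fun t => ?_⟩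
    rw [← hDset]
    exact (hW e).1 he t

end Pool.Agent.H14.TS
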