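import Pool.Agent.H19T.FDefs
import Pool.Agent.H62.FC.Special

/-!
# TS Defs: the special set of a projective manifold of dimension `n + 1` over a complex torus of dimension `n`
-/

set_option autoImplicit false

open MvPolynomial
open Pool.Agent.H17 (PN ZariskiClosedIn HolomorphicInto)
open Pool.Agent.H62.FC (Homog specialSet unionImages IsGeneralType)
open Pool.Agent.H17LG.Variety (FunField)
open Pool.Agent.H17EF (projVar)
open Pool.Agent.H19T (sheets sheetSet TorusSheets EllipticDirection)
open Pool.Agent.H23.GU (IsEtaleCovering)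

noncomputable section

namespace Pool.Agent.H14.TS

variable {N : ℕ}

/-- The closed subvariety `X` of `ℙ^N` given by `P` is of general type, its special set is contained in the Zariski closed subset `Ξ ≠ X`; the special set of
every closed subvariety `Y` of `X` which is not contained in `Ξ` is not equal to `Y`, and `Y` is of general type if its dimension is one. -/
structure SpecialIn (P : Ideal (MvPolynomial (Fin (N + 1)) ℂ)) [P.IsPrime] (Ξ : Set (PN N)) : Prop where
  closed : ZariskiClosedIn (projVar P) Ξ
  ne : Ξ ≠ projVar P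
  generalType : ∀ w, 1 ≤ w → (∃ z : Fin w → FunField P, IsTranscendenceBasis ℂ z) → IsGeneralType (FunField P) w
  special : specialSet (projVar P) ⊆ Ξ
  subvarieties : ∀ (Q : Ideal (MvPolynomial (Fin (N + 1)) ℂ)) [Q.IsPrime], Homog Q → P ≤ Q → ¬ projVar Q ⊆ Ξ →
    specialSet (projVar Q) ≠ projVar Q ∧ ((∃ z : Fin 1 → FunField Q, IsTranscendenceBasis ℂ z) → IsGeneralType (FunField Q) 1)

/-- `X` is the projective manifold given by `P`.  The holomorphic maps `Φ : ℂ^n → X` over the torus `ℂ^n / Λ` are finitely many, they factor through complex tori, their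
images are disjoint or equal, and lie in a hypersurface which does not contain `X` (`TorusSheets`); the union `D` of their images is the union of the images
of all non-constant maps from quotients `ℂ^g / Λ'` to `X` (so the special set of `X` is the Zariski closure of `D`); every non-constant entire curve in `X` is
`Φ ∘ φ` for some `Φ`, `φ` entire; `X` has the properties of `SpecialIn` with the special set of `X` as `Ξ`; every closed subvariety `Y` of dimension one of `X` is of
general type, and its special set is empty, or it is `Φ (b + ℂ a)`, the image of the line `ℂ a` in the torus is an elliptic curve, and its special set is `Y`; every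
projective variety `Y` of general type, of the dimension of `X`, which has a finite étale covering `Y'` with a dominant rational map from `Y'` to `X`, has the properties
of `SpecialIn` with some `Ξ'`, so its special set is not the whole variety. -/
structure TorusSpecialSet {n : ℕ} (P : Ideal (MvPolynomial (Fin (N + 1)) ℂ)) [P.IsPrime] (Λ : AddSubgroup (Fin n → ℂ))
    (u : PN N → (Fin n → ℂ) ⧸ Λ) : Prop where
  torusSheets : TorusSheets P Λ u
  unionImages_eq : unionImages (projVar P) = sheetSet (projVar P) Λ u
  curves : ∀ f : ℂ → PN N, HolomorphicInto f Set.univ → (∀ z, f z ∈ projVar P) → (∃ z w, f z ≠ f w) →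
    ∃ Φ ∈ sheets (projVar P) Λ u, ∃ φ : ℂ → (Fin n → ℂ), Differentiable ℂ φ ∧ ∀ z, f z = Φ (φ z)
  special : SpecialIn P (specialSet (projVar P))
  one : ∀ (Q : Ideal (MvPolynomial (Fin (N + 1)) ℂ)) [Q.IsPrime], Homog Q → P ≤ Q → (∃ z : Fin 1 → FunField Q, IsTranscendenceBasis ℂ z) →
    (IsGeneralType (FunField Q) 1 ∧ specialSet (projVar Q) = ∅) ∨
    (¬ IsGeneralType (FunField Q) 1 ∧ specialSet (projVar Q) = projVar Q ∧ ∃ Φ ∈ sheets (projVar P) Λ u, ∃ a b : Fin n → ℂ, a ≠ 0 ∧
      EllipticDirection Λ a ∧ projVar Q = Set.range fun z : ℂ => Φ (z • a + b))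
  virtual : ∀ (M L : ℕ) (P' : Ideal (MvPolynomial (Fin (M + 1)) ℂ)) [P'.IsPrime] (Q : Ideal (MvPolynomial (Fin (L + 1)) ℂ)) [Q.IsPrime] (p : PN M → PN L),
    Homog P' → Homog Q → (∃ z : Fin (n + 1) → FunField P', IsTranscendenceBasis ℂ z) → (∃ z : Fin (n + 1) → FunField Q, IsTranscendenceBasis ℂ z) →
    Nonempty (FunField P →ₐ[ℂ] FunField P') → IsEtaleCovering Q P' p → IsGeneralType (FunField Q) (n + 1) → ∃ Ξ' : Set (PN L), SpecialIn Q Ξ'

end Pool.Agent.H14.TS
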