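import Pool.Agent.H14.TS.Fin
import Pool.Agent.H17.GlobalLift
import Pool.Agent.H17BP.Final

/-!
# TS Pig: uncountably many entire curves in an algebraic curve have a common point
-/

set_option autoImplicit false

open MvPolynomial Topology Filter
open Pool.Agent.H17 (PN VanishesAt HolomorphicInto EntFun exists_global_lift)
open Pool.Agent.H62.FC (Homog)
open Pool.Agent.H17LG.Variety (FunField)
open Pool.Agent.H17EF (projVar)
open Pool.Agent.H17BP (vanishesAt_mk)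

noncomputable section

namespace Pool.Agent.H14.TS

variable {N : ℕ}

theorem lin_hom (i j : Fin (N + 1)) (c : ℂ) : (X i - C c * X j : MvPolynomial (Fin (N + 1)) ℂ).IsHomogeneous 1 := by
  have h := (isHomogeneous_C (Fin (N + 1)) c).mul (isHomogeneous_X ℂ j)
  rw [zero_add] at h
  exact (isHomogeneous_X ℂ i).sub h

/-- A non-constant entire curve meets one of the hyperplanes `x i = c x j`, `c` in a dense set, and is not contained in it. -/
theorem exists_form {f : ℂ → PN N} (hf : HolomorphicInto f Set.univ) (hne : ∃ z w, f z ≠ f w) {D : Set ℂ} (hD : Dense D) :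
    ∃ (i j : Fin (N + 1)) (c : D), (∃ z, VanishesAt (X i - C (c : ℂ) * X j : MvPolynomial (Fin (N + 1)) ℂ) (f z)) ∧
      ∃ z, ¬ VanishesAt (X i - C (c : ℂ) * X j : MvPolynomial (Fin (N + 1)) ℂ) (f z) := by
  obtain ⟨F, hF⟩ := exists_global_lift hf
  obtain ⟨z₁, z₂, hz⟩ := hne
  have hva : ∀ (i j : Fin (N + 1)) (c : ℂ) (z : ℂ), VanishesAt (X i - C c * X j : MvPolynomial (Fin (N + 1)) ℂ) (f z) ↔
      (F i : ℂ → ℂ) z = c * (F j : ℂ → ℂ) z := by
    intro i j c z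
    obtain ⟨h, e⟩ := hF z
    rw [e, vanishesAt_mk (lin_hom i j c), map_sub, map_mul, eval_X, eval_C, eval_X, sub_eq_zero]
  obtain ⟨j, hj⟩ : ∃ j, (F j : ℂ → ℂ) z₁ ≠ 0 := by
    obtain ⟨h, -⟩ := hF z₁
    by_contra hcon
    push Not at hcon
    exact h (funext hcon)
  have hg : ∀ i, AnalyticAt ℂ (fun z => (F i : ℂ → ℂ) z / (F j : ℂ → ℂ) z) z₁ := fun i =>
    ((F i).analyticAt z₁).div ((F j).analyticAt z₁) hj
  obtain ⟨i, hi⟩ : ∃ i, ¬ ∀ᶠ z in 𝓝 z₁, (F i : ℂ → ℂ) z / (F j : ℂ → ℂ) z = (F i : ℂ → ℂ) z₁ / (F j : ℂ → ℂ) z₁ := by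
    by_contra hcon
    push Not at hcon
    apply hz
    have h1 : ∀ i, ∀ z, (F i : ℂ → ℂ) z = (F i : ℂ → ℂ) z₁ / (F j : ℂ → ℂ) z₁ * (F j : ℂ → ℂ) z := by
      intro i
      have h2 : (F i : ℂ → ℂ) =ᶠ[𝓝 z₁] fun z => (F i : ℂ → ℂ) z₁ / (F j : ℂ → ℂ) z₁ * (F j : ℂ → ℂ) z := by
        filter_upwards [hcon i, ((F j).analyticAt z₁).continuousAt.eventually_ne hj] with z h3 h4
        rw [← h3, div_mul_cancel₀ _ h4]
      have h5 := AnalyticOnNhd.eq_of_eventuallyEq (𝕜 := ℂ) (f := (F i : ℂ → ℂ))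
        (g := fun z => (F i : ℂ → ℂ) z₁ / (F j : ℂ → ℂ) z₁ * (F j : ℂ → ℂ) z) (fun z _ => (F i).analyticAt z)
        (fun z _ => analyticAt_const.mul ((F j).analyticAt z)) h2
      exact fun z => congrFun h5 z
    obtain ⟨e1, e1'⟩ := hF z₁
    obtain ⟨e2, e2'⟩ := hF z₂
    rw [e1', e2', Projectivization.mk_eq_mk_iff']
    have hj2 : (F j : ℂ → ℂ) z₂ ≠ 0 := by
      intro h0
      apply e2
      funext i
      show (F i : ℂ → ℂ) z₂ = 0
      rw [h1 i z₂, h0, mul_zero]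
    refine ⟨(F j : ℂ → ℂ) z₁ / (F j : ℂ → ℂ) z₂, funext fun i => ?_⟩
    show (F j : ℂ → ℂ) z₁ / (F j : ℂ → ℂ) z₂ * (F i : ℂ → ℂ) z₂ = (F i : ℂ → ℂ) z₁
    rw [h1 i z₂]
    field_simp
  have hopen := (hg i).eventually_constant_or_nhds_le_map_nhds.resolve_left hi
  have hset : (fun z => (F i : ℂ → ℂ) z / (F j : ℂ → ℂ) z) '' {z | (F j : ℂ → ℂ) z ≠ 0} ∈
      𝓝 ((F i : ℂ → ℂ) z₁ / (F j : ℂ → ℂ) z₁) := by
    apply hopen
    exact mem_map.2 (mem_of_superset (((F j).analyticAt z₁).continuousAt.eventually_ne hj) fun z hz => ⟨z, hz, rfl⟩)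
  obtain ⟨c, hcD, z, hz0, hzc⟩ := hD.inter_nhds_nonempty hset
  refine ⟨i, j, ⟨c, hcD⟩, ⟨z, (hva i j c z).2 ?_⟩, ?_⟩
  · rw [← hzc]
    exact (div_mul_cancel₀ _ hz0).symm
  · by_contra hcon
    push Not at hcon
    apply hi
    have h1 : ∀ z, (F i : ℂ → ℂ) z = c * (F j : ℂ → ℂ) z := fun z => (hva i j c z).1 (hcon z)
    filter_upwards [((F j).analyticAt z₁).continuousAt.eventually_ne hj] with z hz
    rw [h1 z, h1 z₁, mul_div_cancel_right₀ _ hz, mul_div_cancel_right₀ _ hj]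

/-- Uncountably many non-constant entire curves in an algebraic curve have a common point. -/
theorem exists_point_uncountable {Q : Ideal (MvPolynomial (Fin (N + 1)) ℂ)} [Q.IsPrime] (hQ : Homog Q)
    (hz : ∃ z : Fin 1 → FunField Q, IsTranscendenceBasis ℂ z) {Ψ : ℂ → ℂ → PN N} (h1 : ∀ t, HolomorphicInto (Ψ t) Set.univ)
    (h2 : ∀ t z, Ψ t z ∈ projVar Q) (h3 : ∀ t, ∃ z w, Ψ t z ≠ Ψ t w) : ∃ y, ¬ {t | ∃ z, Ψ t z = y}.Countable := by
  obtain ⟨D, hDc, hD⟩ := TopologicalSpace.exists_countable_dense ℂ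
  have : Countable D := hDc.to_subtype
  choose i j c h4 h5 using fun t => exists_form (h1 t) (h3 t) hD
  by_contra hcon
  push Not at hcon
  have hcov : (Set.univ : Set ℂ) ⊆ ⋃ k : Fin (N + 1) × Fin (N + 1) × D, {t | (i t, j t, c t) = k} := fun t _ => Set.mem_iUnion.2 ⟨_, rfl⟩
  refine not_countable_complex ((Set.countable_iUnion fun k => ?_).mono hcov)
  obtain ⟨i₀, j₀, c₀⟩ := k
  by_cases hR : (X i₀ - C (c₀ : ℂ) * X j₀ : MvPolynomial (Fin (N + 1)) ℂ) ∈ Q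
  · convert Set.countable_empty
    ext t
    simp only [Set.mem_setOf_eq, Set.mem_empty_iff_false, iff_false, Prod.mk.injEq, not_and]
    intro e1 e2 e3
    obtain ⟨z, hz⟩ := h5 t
    rw [e1, e2, e3] at hz
    exact hz (h2 t z _ hR _ (lin_hom i₀ j₀ c₀))
  · have hfin := finite_zeros hQ hz (lin_hom i₀ j₀ c₀) hR
    refine (hfin.countable.biUnion (t := fun y _ => {t | ∃ z, Ψ t z = y}) fun y _ => hcon y).mono ?_
    intro t ht
    simp only [Set.mem_setOf_eq, Prod.mk.injEq] at ht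
    obtain ⟨e1, e2, e3⟩ := ht
    obtain ⟨z, hz⟩ := h4 t
    rw [e1, e2, e3] at hz
    exact Set.mem_biUnion (show Ψ t z ∈ {x | x ∈ projVar Q ∧ VanishesAt _ x} from ⟨h2 t z, hz⟩) ⟨z, rfl⟩

end Pool.Agent.H14.TS
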