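import Pool.Agent.H14.TS.Defs
import Pool.Agent.H14.TS.Crv

/-!
# TS Sab: the sheets are maps from complex tori; the special set
-/

set_option autoImplicit false

open MvPolynomial Topology Filter
open Pool.Agent.H17 (PN VanishesAt HolomorphicInto ZariskiClosedIn)
open Pool.Agent.H62.FC (Homog specialSet unionImages IsGeneralType SemiAbelianMap unionImages_subset)
open Pool.Agent.H17LG.Variety (FunField IsLogGeneralType)
open Pool.Agent.H17EF (projVar GT)
open Pool.Agent.H14.V (isGeneralType_of_gt gt_of_isGeneralType)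
open Pool.Agent.AD (NoEllipticCurve)
open Pool.Agent.H19T (sheets sheetSet TorusSheets TorusCurves)
open Pool.Agent.H22.TB (GGLC)

noncomputable section

namespace Pool.Agent.H14.TS

variable {N n : ℕ}

/-- a map `Φ` over the torus as a map from a torus -/
def sheetMap (hn : 1 ≤ n) {X : Set (PN N)} {Λ : AddSubgroup (Fin n → ℂ)} [hd : DiscreteTopology Λ] {u : PN N → (Fin n → ℂ) ⧸ Λ}
    {Φ : (Fin n → ℂ) → PN N} (hΦ : Φ ∈ sheets X Λ u) {M : ℕ} (hper : ∀ l ∈ Λ, ∀ w, Φ (w + M • l) = Φ w) : SemiAbelianMap N where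
  g := n
  one_le := hn
  Λ := Λ.map (nsmulAddMonoidHom M)
  discrete := by
    refine DiscreteTopology.of_subset (s := (Λ : Set (Fin n → ℂ))) hd ?_
    rintro _ ⟨l, hl, rfl⟩
    exact Λ.nsmul_mem hl M
  Z := ∅
  analytic := fun p => ⟨1, fun _ _ => 1, analyticAt_const, Filter.Eventually.of_forall fun x => by
    constructor
    · intro h
      exact absurd h (Set.notMem_empty x)
    · intro h
      exact absurd (congrFun h 0) one_ne_zero⟩
  codim := Or.inl rfl
  f := Φ
  holomorphic := fun p _ => hΦ.1 p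
  periodic_Z := by simp
  periodic_f := by
    rintro _ ⟨l, hl, rfl⟩ p _
    exact hper l hl p

theorem sheetSet_subset (hn : 1 ≤ n) {P : Ideal (MvPolynomial (Fin (N + 1)) ℂ)} {Λ : AddSubgroup (Fin n → ℂ)} [DiscreteTopology Λ]
    {u : PN N → (Fin n → ℂ) ⧸ Λ} (hS : TorusSheets P Λ u) : sheetSet (projVar P) Λ u ⊆ unionImages (projVar P) := by
  have hc : Countable Λ := TopologicalSpace.separableSpace_iff_countable.1 inferInstance
  intro x hx
  simp only [sheetSet, Set.mem_iUnion] at hx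
  obtain ⟨Φ, hΦ, w, rfl⟩ := hx
  obtain ⟨M, -, hper⟩ := hS.periodic
  refine ⟨sheetMap hn hΦ (hper Φ hΦ), ?_, ?_, ⟨w, Set.notMem_empty _, rfl⟩⟩
  · rintro _ ⟨p, -, rfl⟩
    exact hΦ.2.1 p
  · obtain ⟨v, hv⟩ : ∃ v : Fin n → ℂ, v ∉ Λ := by
      by_contra hcon
      push Not at hcon
      have hi : Function.Injective fun z : ℂ => (⟨fun _ => z, hcon _⟩ : Λ) := fun z w h =>
        congrFun (congrArg Subtype.val h : (fun _ : Fin n => z) = fun _ => w) ⟨0, hn⟩
      have h1 : Countable ℂ := hi.countable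
      exact not_countable_complex (Set.countable_univ_iff.2 h1)
    refine ⟨Φ v, ⟨v, Set.notMem_empty _, rfl⟩, Φ 0, ⟨0, Set.notMem_empty _, rfl⟩, fun h => hv ?_⟩
    have := (hS.disjoint Φ hΦ Φ hΦ v 0 h).1
    rwa [sub_zero] at this

/-- all the images of maps from quotients lie in the union of the sheets -/
theorem unionImages_eq (hn : 1 ≤ n) {P : Ideal (MvPolynomial (Fin (N + 1)) ℂ)} [P.IsPrime] {Λ : AddSubgroup (Fin n → ℂ)} [DiscreteTopology Λ]
    {u : PN N → (Fin n → ℂ) ⧸ Λ} (hS : TorusSheets P Λ u) (hC : TorusCurves P Λ u) :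
    unionImages (projVar P) = sheetSet (projVar P) Λ u := by
  refine Set.Subset.antisymm (unionImages_subset ?_) (sheetSet_subset hn hS)
  rw [hC.special]
  exact subset_rfl

/-- the two closures -/
theorem closureIn_eq (X D : Set (PN N)) : Pool.Agent.H62.FC.closureIn X D = Pool.Agent.H22.TB.closureIn X D := by
  ext x
  exact ⟨fun h => ⟨h.1, fun Q e hQ h1 => h.2 e Q hQ h1⟩, fun h => ⟨h.1, fun e Q hQ h1 => h.2 Q e hQ h1⟩⟩

/-- the special set of a variety for which the entire curves lie in `Ξ` -/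
theorem specialIn_of {P : Ideal (MvPolynomial (Fin (N + 1)) ℂ)} [P.IsPrime] {Ξ : Set (PN N)} (h : GGLC P Ξ) : SpecialIn P Ξ := by
  have hent : ∀ Y ⊆ projVar P, specialSet Y ⊆ Ξ := by
    intro Y hY
    refine Pool.Agent.H17R.closureIn_subset h.closed hY (unionImages_subset ?_)
    rintro _ ⟨f, hf, hfY, hne, z, rfl⟩
    exact h.brody f hf (fun z => hY (hfY z)) hne z
  refine ⟨h.closed, h.proper, fun w hw hz => isGeneralType_of_gt (h.generalType w hw hz), hent _ subset_rfl, ?_⟩
  intro Q _ hQ hPQ hsub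
  have hY : projVar Q ⊆ projVar P := fun x hx => fun R hR => hx R (hPQ hR)
  refine ⟨fun heq => hsub (heq ▸ hent _ hY), fun hz => isGeneralType_of_gt (h.strongly Q hQ hPQ hsub hz)⟩

/-- a curve of general type has empty special set -/
theorem specialSet_empty (Q : Ideal (MvPolynomial (Fin (N + 1)) ℂ)) [Q.IsPrime] (hQ : Homog Q)
    (hz : ∃ z : Fin 1 → FunField Q, IsTranscendenceBasis ℂ z) (hgt : IsGeneralType (FunField Q) 1) : specialSet (projVar Q) = ∅ := by
  have h1 : unionImages (projVar Q) ⊆ ∅ := by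
    refine unionImages_subset ?_
    rintro _ ⟨f, hf, hfQ, ⟨z, w, hzw⟩, -⟩
    exact absurd (Pool.Agent.AD.SS.const_of_generalType Q hQ hz hgt hf hfQ z w) hzw
  rw [Set.eq_empty_iff_forall_notMem]
  intro x hx
  have h2 := hx.2 0 1 (isHomogeneous_one _ _) fun y hy => absurd (h1 hy) (Set.notMem_empty y)
  unfold VanishesAt at h2
  rw [map_one] at h2
  exact one_ne_zero h2

/-- **The special set of a variety over a torus.** -/
theorem torusSpecialSet (hn : 1 ≤ n) {P : Ideal (MvPolynomial (Fin (N + 1)) ℂ)} [P.IsPrime] {Λ : AddSubgroup (Fin n → ℂ)} [DiscreteTopology Λ]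
    (hspan : Submodule.span ℝ (Λ : Set (Fin n → ℂ)) = ⊤) {u : PN N → (Fin n → ℂ) ⧸ Λ} (hS : TorusSheets P Λ u) (hC : TorusCurves P Λ u) :
    TorusSpecialSet P Λ u := by
  have h1 := unionImages_eq hn hS hC
  have h2 : specialSet (projVar P) = Pool.Agent.H22.TB.closureIn (projVar P) (sheetSet (projVar P) Λ u) := by
    unfold specialSet
    rw [h1, closureIn_eq]
  refine ⟨hS, h1, fun f hf hfX hne => ?_, by rw [h2]; exact specialIn_of hC.ggl, fun Q _ hQ hPQ hz => ?_,
    fun M L P' _ Q _ p hP' hQ hz' hz he hp hgt => ?_⟩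
  · obtain ⟨Φ, hΦ, φ, hφ, -, h3⟩ := hC.curves f hf hfX hne
    exact ⟨Φ, hΦ, φ, hφ, h3⟩
  · rcases curve_or hspan hS (fun f hf hfo hfX hne => by
      obtain ⟨Φ, hΦ, φ, -, h4, h5⟩ := hC.curves f hf hfX hne
      obtain ⟨a, b, h6⟩ := h4 hfo
      exact ⟨Φ, hΦ, a, b, fun z => by rw [h5, h6]⟩) hQ hPQ hz with h3 | ⟨Φ, hΦ, a, b, ha, hell, hper, hQr⟩
    · have h4 := isGeneralType_of_gt h3
      exact Or.inl ⟨h4, specialSet_empty Q hQ hz h4⟩
    · right
      have hHol : Hol Φ := hΦ.1
      have hf : HolomorphicInto (fun z : ℂ => Φ (z • a + b)) Set.univ := by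
        have := hHol.line a b
        simpa only [add_comm b] using this
      have hfQ : ∀ z : ℂ, Φ (z • a + b) ∈ projVar Q := fun z => by
        rw [hQr]
        exact ⟨z, rfl⟩
      have hne : ∃ z w : ℂ, Φ (z • a + b) ≠ Φ (w • a + b) := by
        by_contra hcon
        push Not at hcon
        have hc : Countable Λ := TopologicalSpace.separableSpace_iff_countable.1 inferInstance
        have h5 : ∀ z : ℂ, z • a ∈ Λ := fun z => by
          have h6 := (hS.disjoint Φ hΦ Φ hΦ _ _ (hcon z 0)).1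
          rwa [zero_smul, zero_add, add_sub_cancel_right] at h6
        have hi : Function.Injective fun z : ℂ => (⟨z • a, h5 z⟩ : Λ) := fun z w h => smul_left_injective ℂ ha (congrArg Subtype.val h)
        have h7 : Countable ℂ := hi.countable
        exact not_countable_complex (Set.countable_univ_iff.2 h7)
      refine ⟨fun hgt => ?_, Set.Subset.antisymm (fun x hx => hx.1) fun x hx => ?_, Φ, hΦ, a, b, ha, hell, hQr⟩
      · obtain ⟨z, w, hzw⟩ := hne
        exact hzw (Pool.Agent.AD.SS.const_of_generalType Q hQ hz hgt hf hfQ z w)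
      · apply Pool.Agent.H14.V.closure_subset_special hf hfQ hne hper
        rw [hQr] at hx
        obtain ⟨z, rfl⟩ := hx
        exact fun R m hm hR => hR z
  · obtain ⟨Ξ', h3⟩ := hC.virtual M L P' Q p hP' hQ hz' hz he hp (gt_of_isGeneralType hgt)
    exact ⟨Ξ', specialIn_of h3⟩

end Pool.Agent.H14.TS
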